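import Mathlib

namespace Pool.Agent.Results.MP_dcb15c_an.NonUnique

open Set Filter Topology

/-- Euclidean space. -/
abbrev E (n : ℕ) := EuclideanSpace ℝ (Fin n)

/-- The Hessian form `⟨D²φ(x) ξ, η⟩`. -/
noncomputable def hess {n : ℕ} (φ : E n → ℝ) (x ξ η : E n) : ℝ :=
  fderiv ℝ (fderiv ℝ φ) x ξ η

/-- The Laplacian, the trace of the Hessian. -/
noncomputable def lap {n : ℕ} (φ : E n → ℝ) (x : E n) : ℝ :=
  ∑ i, hess φ x (EuclideanSpace.single i 1) (EuclideanSpace.single i 1)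

/-- `Δφ(x) + (p-2) ⟨D²φ(x) ξ, ξ⟩ / |ξ|²`; at `ξ = Dφ(x) ≠ 0` it is the normalized
`p`-Laplacian of `φ` at `x`. -/
noncomputable def op {n : ℕ} (p : ℝ) (φ : E n → ℝ) (x ξ : E n) : ℝ :=
  lap φ x + (p - 2) * (hess φ x ξ ξ / ‖ξ‖ ^ 2)

/-- Upper semicontinuous envelope of the normalized `p`-Laplacian. -/
noncomputable def opUp {n : ℕ} (p : ℝ) (φ : E n → ℝ) (x : E n) : ℝ :=
  open Classical in
  if gradient φ x = 0 then sSup (op p φ x '' Metric.sphere 0 1) else op p φ x (gradient φ x)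

/-- Lower semicontinuous envelope of the normalized `p`-Laplacian. -/
noncomputable def opLow {n : ℕ} (p : ℝ) (φ : E n → ℝ) (x : E n) : ℝ :=
  open Classical in
  if gradient φ x = 0 then sInf (op p φ x '' Metric.sphere 0 1) else op p φ x (gradient φ x)

/-- `u ∈ C(closure Ω)` is a viscosity solution of `Δ^N_p u = f` in `Ω`, `u = g` on `∂Ω`. -/
def IsSol {n : ℕ} (p : ℝ) (Ω : Set (E n)) (f g u : E n → ℝ) : Prop :=
  ContinuousOn u (closure Ω) ∧ EqOn u g (frontier Ω) ∧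
    ∀ x ∈ Ω, ∀ φ : E n → ℝ, ContDiffAt ℝ 2 φ x →
      (IsLocalMax (u - φ) x → f x ≤ opUp p φ x) ∧ (IsLocalMin (u - φ) x → opLow p φ x ≤ f x)

lemma line_d1 {n : ℕ} {φ : E n → ℝ} {x : E n} (h : ContDiffAt ℝ 2 φ x) (ξ : E n) :
    ∀ᶠ t in 𝓝 (0 : ℝ), HasDerivAt (fun t : ℝ => φ (x + t • ξ)) (fderiv ℝ φ (x + t • ξ) ξ) t := by
  have hc : Continuous (fun t : ℝ => x + t • ξ) := by fun_prop
  have h1 : ∀ᶠ y in 𝓝 x, DifferentiableAt ℝ φ y :=
    (h.eventually (by simp)).mono fun y hy => hy.differentiableAt (by norm_num)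
  have ht : Tendsto (fun t : ℝ => x + t • ξ) (𝓝 0) (𝓝 x) := by
    simpa using hc.tendsto 0
  filter_upwards [ht.eventually h1] with t htt
  have hl : HasDerivAt (fun t : ℝ => x + t • ξ) ξ t := by
    simpa using ((hasDerivAt_id t).smul_const ξ).const_add x
  exact htt.hasFDerivAt.comp_hasDerivAt t hl

lemma line_d2 {n : ℕ} {φ : E n → ℝ} {x : E n} (h : ContDiffAt ℝ 2 φ x) (ξ : E n) :
    HasDerivAt (deriv fun t : ℝ => φ (x + t • ξ)) (hess φ x ξ ξ) 0 := by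
  have e : (deriv fun t : ℝ => φ (x + t • ξ)) =ᶠ[𝓝 0] fun t => fderiv ℝ φ (x + t • ξ) ξ :=
    (line_d1 h ξ).mono fun t ht => ht.deriv
  refine HasDerivAt.congr_of_eventuallyEq ?_ e
  have hd : DifferentiableAt ℝ (fderiv ℝ φ) x :=
    (h.fderiv_right (m := 1) (by norm_num)).differentiableAt (by norm_num)
  have hl : HasDerivAt (fun t : ℝ => x + t • ξ) ξ 0 := by
    simpa using ((hasDerivAt_id (0 : ℝ)).smul_const ξ).const_add x
  have hd' : HasFDerivAt (fderiv ℝ φ) (fderiv ℝ (fderiv ℝ φ) x) (x + (0 : ℝ) • ξ) := by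
    simpa using hd.hasFDerivAt
  have := (hd'.comp_hasDerivAt (0 : ℝ) hl).clm_apply (hasDerivAt_const (0 : ℝ) ξ)
  simpa [hess] using this

lemma max_d2 {g : ℝ → ℝ} {c : ℝ} (hm : IsLocalMax g 0) (hc : ContinuousAt g 0)
    (h2 : HasDerivAt (deriv g) c 0) : c ≤ 0 := by
  by_contra hpos
  push Not at hpos
  have hmin : IsLocalMin g 0 :=
    isLocalMin_of_deriv_deriv_pos (by rw [h2.deriv]; exact hpos) hm.deriv_eq_zero hc
  have e : g =ᶠ[𝓝 0] fun _ => g 0 := by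
    filter_upwards [hm, hmin] with t h1 h2 using le_antisymm h1 h2
  have e2 : deriv g =ᶠ[𝓝 0] fun _ => 0 := by
    have := e.deriv
    simpa using this
  have := h2.unique ((hasDerivAt_const (0 : ℝ) (0 : ℝ)).congr_of_eventuallyEq e2)
  linarith

/-- Touching from above. -/
lemma touch {n : ℕ} {u φ : E n → ℝ} {x : E n} (hu : ContDiffAt ℝ 2 u x) (h : ContDiffAt ℝ 2 φ x)
    (hm : IsLocalMax (u - φ) x) :
    gradient φ x = gradient u x ∧ ∀ ξ, hess u x ξ ξ ≤ hess φ x ξ ξ := by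
  constructor
  · have h0 := hm.fderiv_eq_zero
    rw [fderiv_sub (hu.differentiableAt (by norm_num)) (h.differentiableAt (by norm_num)),
      sub_eq_zero] at h0
    simp only [gradient, h0]
  · intro ξ
    have hc : Continuous (fun t : ℝ => x + t • ξ) := by fun_prop
    have hm' : IsLocalMax (fun t : ℝ => u (x + t • ξ) - φ (x + t • ξ)) 0 := by
      have h0 : IsLocalMax (u - φ) (x + (0 : ℝ) • ξ) := by simpa using hm
      exact h0.comp_continuous (g := fun t : ℝ => x + t • ξ) hc.continuousAt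
    have e : (deriv fun t : ℝ => u (x + t • ξ) - φ (x + t • ξ)) =ᶠ[𝓝 0]
        fun t => deriv (fun t : ℝ => u (x + t • ξ)) t - deriv (fun t : ℝ => φ (x + t • ξ)) t := by
      filter_upwards [line_d1 hu ξ, line_d1 h ξ] with t h1 h2
      rw [(h1.fun_sub h2).deriv, h1.deriv, h2.deriv]
    have h2 := ((line_d2 hu ξ).sub (line_d2 h ξ)).congr_of_eventuallyEq e
    have := max_d2 hm' (((line_d1 hu ξ).self_of_nhds.sub
      (line_d1 h ξ).self_of_nhds).continuousAt) h2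
    linarith

/-- The rotated vector. -/
noncomputable def rot (ξ : E 2) : E 2 := !₂[-ξ 1, ξ 0]

lemma decomp (ξ : E 2) :
    ξ = ξ 0 • EuclideanSpace.single (0 : Fin 2) (1 : ℝ) + ξ 1 • EuclideanSpace.single 1 1 := by
  ext i; fin_cases i <;> simp

lemma normsq (ξ : E 2) : ‖ξ‖ ^ 2 = ξ 0 ^ 2 + ξ 1 ^ 2 := by
  rw [EuclideanSpace.real_norm_sq_eq]; simp [Fin.sum_univ_two]

lemma trace_eq (φ : E 2 → ℝ) (x ξ : E 2) :
    hess φ x ξ ξ + hess φ x (rot ξ) (rot ξ) = ‖ξ‖ ^ 2 * lap φ x := by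
  have h1 := decomp ξ
  have h2 := decomp (rot ξ)
  have a : rot ξ 0 = -ξ 1 := by simp [rot]
  have b : rot ξ 1 = ξ 0 := by simp [rot]
  rw [a, b] at h2
  rw [normsq, h2]
  conv_lhs => rw [h1]
  simp only [hess, lap, Fin.sum_univ_two, map_add, map_smul, ContinuousLinearMap.add_apply,
    ContinuousLinearMap.smul_apply, smul_eq_mul]
  simp
  ring

lemma op_eq (p : ℝ) (φ : E 2 → ℝ) (x ξ : E 2) (hξ : ξ ≠ 0) :
    op p φ x ξ = ((p - 1) * hess φ x ξ ξ + hess φ x (rot ξ) (rot ξ)) / ‖ξ‖ ^ 2 := by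
  have h := trace_eq φ x ξ
  have hn : ‖ξ‖ ^ 2 ≠ 0 := by positivity
  have : lap φ x = (hess φ x ξ ξ + hess φ x (rot ξ) (rot ξ)) / ‖ξ‖ ^ 2 := by
    rw [h]; field_simp
  rw [op, this]; field_simp; ring

lemma op_mono {p : ℝ} (hp : 1 ≤ p) {u φ : E 2 → ℝ} {x : E 2}
    (h : ∀ ξ, hess u x ξ ξ ≤ hess φ x ξ ξ) (ξ : E 2) (hξ : ξ ≠ 0) : op p u x ξ ≤ op p φ x ξ := by
  rw [op_eq p u x ξ hξ, op_eq p φ x ξ hξ]
  have := h ξ
  have := h (rot ξ)
  gcongr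

lemma op_cont (p : ℝ) (φ : E 2 → ℝ) (x : E 2) : ContinuousOn (op p φ x) (Metric.sphere 0 1) := by
  unfold op hess
  refine continuousOn_const.add (continuousOn_const.mul (ContinuousOn.div (by fun_prop)
    (by fun_prop) ?_))
  intro ξ hξ
  have : ‖ξ‖ = 1 := by simpa using hξ
  simp [this]

/-- A `C²` function solving the equation where its gradient does not vanish, with `f` between the
envelopes at critical points, is a viscosity solution. -/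
lemma visc {p : ℝ} (hp : 1 ≤ p) {u f : E 2 → ℝ} {x : E 2} (hu : ContDiffAt ℝ 2 u x)
    (h1 : gradient u x ≠ 0 → op p u x (gradient u x) = f x)
    (h2 : gradient u x = 0 → (∃ ξ, ξ ≠ 0 ∧ f x ≤ op p u x ξ) ∧ ∃ ξ, ξ ≠ 0 ∧ op p u x ξ ≤ f x)
    (φ : E 2 → ℝ) (h : ContDiffAt ℝ 2 φ x) :
    (IsLocalMax (u - φ) x → f x ≤ opUp p φ x) ∧ (IsLocalMin (u - φ) x → opLow p φ x ≤ f x) := by
  have hs : ∀ (ψ : E 2 → ℝ) (ξ : E 2), ξ ≠ 0 → op p ψ x ξ ∈ op p ψ x '' Metric.sphere 0 1 := by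
    intro ψ ξ hξ
    have hn : ‖ξ‖ ≠ 0 := by positivity
    refine ⟨‖ξ‖⁻¹ • ξ, by simp [norm_smul, hn], ?_⟩
    simp only [op, hess, map_smul, ContinuousLinearMap.smul_apply, smul_eq_mul, norm_smul,
      norm_inv, norm_norm]
    field_simp
  have hK := (isCompact_sphere (0 : E 2) 1).image_of_continuousOn (op_cont p φ x)
  constructor
  · intro hm
    obtain ⟨hg, hh⟩ := touch hu h hm
    unfold opUp
    split_ifs with h0
    · obtain ⟨ξ, hξ, hle⟩ := (h2 (hg ▸ h0)).1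
      exact hle.trans ((op_mono hp hh ξ hξ).trans (le_csSup hK.bddAbove (hs φ ξ hξ)))
    · rw [hg] at h0 ⊢
      exact (h1 h0).symm.le.trans (op_mono hp hh _ h0)
  · intro hm
    have hm' : IsLocalMax (φ - u) x := by
      have := hm.neg
      have e : (fun y => -(u - φ) y) = φ - u := by ext y; simp
      rwa [e] at this
    obtain ⟨hg, hh⟩ := touch h hu hm'
    unfold opLow
    split_ifs with h0
    · obtain ⟨ξ, hξ, hle⟩ := (h2 (hg.trans h0)).2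
      exact (csInf_le hK.bddBelow (hs φ ξ hξ)).trans ((op_mono hp hh ξ hξ).trans hle)
    · rw [← hg] at h0 ⊢
      exact (op_mono hp hh _ h0).trans (h1 h0).le

lemma quartic {φ : E 2 → ℝ} {x : E 2} (h : ContDiffAt ℝ 2 φ x) (ξ : E 2) {a b c d e : ℝ}
    (he : ∀ t : ℝ, φ (x + t • ξ) = a + b * t + c * t ^ 2 + d * t ^ 3 + e * t ^ 4) :
    fderiv ℝ φ x ξ = b ∧ hess φ x ξ ξ = 2 * c := by
  have hf : (fun t : ℝ => φ (x + t • ξ)) =
      fun t => a + b * t + c * t ^ 2 + d * t ^ 3 + e * t ^ 4 := funext he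
  have d1 : ∀ t : ℝ, HasDerivAt (fun t : ℝ => a + b * t + c * t ^ 2 + d * t ^ 3 + e * t ^ 4)
      (b + 2 * c * t + 3 * d * t ^ 2 + 4 * e * t ^ 3) t := by
    intro t
    have := (((((hasDerivAt_id t).const_mul b).const_add a).fun_add
      ((hasDerivAt_pow 2 t).const_mul c)).fun_add ((hasDerivAt_pow 3 t).const_mul d)).fun_add
      ((hasDerivAt_pow 4 t).const_mul e)
    exact this.congr_deriv (by push_cast; ring)
  have d2 : HasDerivAt (fun t : ℝ => b + 2 * c * t + 3 * d * t ^ 2 + 4 * e * t ^ 3) (2 * c) 0 := by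
    have := ((((hasDerivAt_id (0 : ℝ)).const_mul (2 * c)).const_add b).fun_add
      ((hasDerivAt_pow 2 (0 : ℝ)).const_mul (3 * d))).fun_add
      ((hasDerivAt_pow 3 (0 : ℝ)).const_mul (4 * e))
    exact this.congr_deriv (by push_cast; ring)
  constructor
  · have h1 := (line_d1 h ξ).self_of_nhds
    rw [hf] at h1
    simpa using h1.unique (d1 0)
  · have h2 := line_d2 h ξ
    have : deriv (fun t : ℝ => a + b * t + c * t ^ 2 + d * t ^ 3 + e * t ^ 4) =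
        fun t => b + 2 * c * t + 3 * d * t ^ 2 + 4 * e * t ^ 3 := funext fun t => (d1 t).deriv
    rw [hf, this] at h2
    exact h2.unique d2

lemma grad_coord (φ : E 2 → ℝ) (x : E 2) (i : Fin 2) :
    gradient φ x i = fderiv ℝ φ x (EuclideanSpace.single i 1) := by
  have : fderiv ℝ φ x (EuclideanSpace.single i 1) =
      inner ℝ (gradient φ x) (EuclideanSpace.single i (1 : ℝ)) := by
    simp [gradient]
  rw [this, EuclideanSpace.inner_single_right]; simp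

/-- The first solution. -/
noncomputable def U (x : E 2) : ℝ := (x 0 ^ 2 - x 1 ^ 2) ^ 2 - 1

/-- The second solution. -/
noncomputable def V (x : E 2) : ℝ := -4 * x 0 ^ 2 * x 1 ^ 2

/-- The source term. -/
noncomputable def F (x : E 2) : ℝ :=
  8 / 5 * ((4 * x 0 ^ 2 * x 1 ^ 2 - (x 0 ^ 2 - x 1 ^ 2) ^ 2) / (x 0 ^ 2 + x 1 ^ 2))

lemma U_cd : ContDiff ℝ 2 U := by unfold U; fun_prop

lemma V_cd : ContDiff ℝ 2 V := by unfold V; fun_prop

lemma U_der (x ξ : E 2) :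
    fderiv ℝ U x ξ = 4 * (x 0 ^ 2 - x 1 ^ 2) * (x 0 * ξ 0 - x 1 * ξ 1) ∧
    hess U x ξ ξ = 2 * (4 * (x 0 * ξ 0 - x 1 * ξ 1) ^ 2 +
      2 * (x 0 ^ 2 - x 1 ^ 2) * (ξ 0 ^ 2 - ξ 1 ^ 2)) := by
  refine quartic U_cd.contDiffAt ξ (a := U x)
    (d := 4 * (x 0 * ξ 0 - x 1 * ξ 1) * (ξ 0 ^ 2 - ξ 1 ^ 2)) (e := (ξ 0 ^ 2 - ξ 1 ^ 2) ^ 2) ?_
  intro t; simp [U]; ring

lemma V_der (x ξ : E 2) :
    fderiv ℝ V x ξ = -8 * (x 0 * x 1) * (x 0 * ξ 1 + x 1 * ξ 0) ∧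
    hess V x ξ ξ = 2 * (-4 * (x 0 * ξ 1 + x 1 * ξ 0) ^ 2 - 8 * (x 0 * x 1) * (ξ 0 * ξ 1)) := by
  refine quartic V_cd.contDiffAt ξ (a := V x)
    (d := -8 * (x 0 * ξ 1 + x 1 * ξ 0) * (ξ 0 * ξ 1)) (e := -4 * (ξ 0 * ξ 1) ^ 2) ?_
  intro t; simp [V]; ring

lemma op_smul (p : ℝ) (φ : E 2 → ℝ) (x ξ : E 2) {c : ℝ} (hc : c ≠ 0) :
    op p φ x (c • ξ) = op p φ x ξ := by
  by_cases hξ : ξ = 0
  · simp [hξ]
  have hn : ‖ξ‖ ≠ 0 := by positivity
  simp only [op, hess, map_smul, ContinuousLinearMap.smul_apply, smul_eq_mul, norm_smul, mul_pow,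
    Real.norm_eq_abs, sq_abs]
  field_simp

lemma ne_zero_iff (ξ : E 2) : ξ ≠ 0 ↔ ξ 0 ^ 2 + ξ 1 ^ 2 ≠ 0 := by
  rw [← normsq]; simp

lemma at_zero {p : ℝ} {u : E 2 → ℝ} (h : ∀ ξ, hess u 0 ξ ξ = 0) :
    (∃ ξ, ξ ≠ 0 ∧ F 0 ≤ op p u 0 ξ) ∧ ∃ ξ, ξ ≠ 0 ∧ op p u 0 ξ ≤ F 0 := by
  have h1 : (!₂[1, 0] : E 2) ≠ 0 := by rw [ne_zero_iff]; simp
  have h2 : op p u 0 !₂[1, 0] = F 0 := by
    rw [op_eq _ _ _ _ h1, h, h]; simp [F]
  exact ⟨⟨_, h1, h2.ge⟩, ⟨_, h1, h2.le⟩⟩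

lemma U_visc (x : E 2) (φ : E 2 → ℝ) (h : ContDiffAt ℝ 2 φ x) :
    (IsLocalMax (U - φ) x → F x ≤ opUp (6 / 5) φ x) ∧
      (IsLocalMin (U - φ) x → opLow (6 / 5) φ x ≤ F x) := by
  have hg : gradient U x = (4 * (x 0 ^ 2 - x 1 ^ 2)) • (!₂[x 0, -x 1] : E 2) := by
    ext i
    rw [grad_coord, (U_der _ _).1]
    fin_cases i <;> simp
  have key : x ≠ 0 → (!₂[x 0, -x 1] : E 2) ≠ 0 ∧ op (6 / 5) U x !₂[x 0, -x 1] = F x := by
    intro hx
    rw [ne_zero_iff] at hx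
    have h1 : (!₂[x 0, -x 1] : E 2) ≠ 0 := by rw [ne_zero_iff]; simpa using hx
    refine ⟨h1, ?_⟩
    rw [op_eq _ _ _ _ h1, (U_der _ _).2, (U_der _ _).2, normsq]
    simp only [rot, F]
    simp
    field_simp
    ring
  by_cases hx : x = 0
  · subst hx
    refine visc (by norm_num) U_cd.contDiffAt (fun h0 => (h0 ?_).elim)
      (fun _ => at_zero fun ξ => by simp [(U_der _ _).2]) φ h
    rw [hg]; simp
  obtain ⟨h1, h2⟩ := key hx
  refine visc (by norm_num) U_cd.contDiffAt (fun h0 => ?_)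
    (fun _ => ⟨⟨_, h1, h2.ge⟩, ⟨_, h1, h2.le⟩⟩) φ h
  rw [hg] at h0 ⊢
  rw [op_smul _ _ _ _ (left_ne_zero_of_smul h0), h2]

lemma V_visc (x : E 2) (φ : E 2 → ℝ) (h : ContDiffAt ℝ 2 φ x) :
    (IsLocalMax (V - φ) x → F x ≤ opUp (6 / 5) φ x) ∧
      (IsLocalMin (V - φ) x → opLow (6 / 5) φ x ≤ F x) := by
  have hg : gradient V x = (-8 * (x 0 * x 1)) • (!₂[x 1, x 0] : E 2) := by
    ext i
    rw [grad_coord, (V_der _ _).1]
    fin_cases i <;> simp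
  have key : x ≠ 0 → (!₂[x 1, x 0] : E 2) ≠ 0 ∧ op (6 / 5) V x !₂[x 1, x 0] = F x := by
    intro hx
    rw [ne_zero_iff] at hx
    have h1 : (!₂[x 1, x 0] : E 2) ≠ 0 := by rw [ne_zero_iff]; simpa [add_comm] using hx
    refine ⟨h1, ?_⟩
    have hx' : x 1 ^ 2 + x 0 ^ 2 ≠ 0 := by rwa [add_comm]
    rw [op_eq _ _ _ _ h1, (V_der _ _).2, (V_der _ _).2, normsq]
    simp only [rot, F]
    simp
    field_simp
    ring
  by_cases hx : x = 0
  · subst hx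
    refine visc (by norm_num) V_cd.contDiffAt (fun h0 => (h0 ?_).elim)
      (fun _ => at_zero fun ξ => by simp [(V_der _ _).2]) φ h
    rw [hg]; simp
  obtain ⟨h1, h2⟩ := key hx
  refine visc (by norm_num) V_cd.contDiffAt (fun h0 => ?_)
    (fun _ => ⟨⟨_, h1, h2.ge⟩, ⟨_, h1, h2.le⟩⟩) φ h
  rw [hg] at h0 ⊢
  rw [op_smul _ _ _ _ (left_ne_zero_of_smul h0), h2]

lemma F_cont : Continuous F := by
  rw [continuous_iff_continuousAt]
  intro x
  by_cases hx : x = 0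
  · subst hx
    have hb : ∀ y : E 2, ‖F y‖ ≤ 8 / 5 * (y 0 ^ 2 + y 1 ^ 2) := by
      intro y
      by_cases hy : y 0 ^ 2 + y 1 ^ 2 = 0
      · simp [F, hy]
      have hp : 0 < y 0 ^ 2 + y 1 ^ 2 := lt_of_le_of_ne (by positivity) (Ne.symm hy)
      rw [F, norm_mul, Real.norm_of_nonneg (by norm_num : (0 : ℝ) ≤ 8 / 5), norm_div,
        Real.norm_of_nonneg hp.le]
      gcongr
      rw [div_le_iff₀ hp, Real.norm_eq_abs, abs_le]
      constructor <;> nlinarith [sq_nonneg (y 0 ^ 2 - y 1 ^ 2), sq_nonneg (y 0 * y 1)]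
    have hc : Continuous fun y : E 2 => 8 / 5 * (y 0 ^ 2 + y 1 ^ 2) := by fun_prop
    have h0 : F 0 = 0 := by simp [F]
    rw [ContinuousAt, h0]
    exact squeeze_zero_norm hb (by simpa using hc.tendsto 0)
  · rw [← ne_eq, ne_zero_iff] at hx
    unfold F
    exact continuousAt_const.mul (ContinuousAt.div (by fun_prop) (by fun_prop) hx)

theorem result : ∃ (f g u v : E 2 → ℝ), Continuous f ∧ Continuous g ∧
    IsSol (6 / 5) (Metric.ball 0 1) f g u ∧ IsSol (6 / 5) (Metric.ball 0 1) f g v ∧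
    ∀ x ∈ Metric.ball (0 : E 2) 1, u x < v x := by
  have hd : ∀ x : E 2, U x - V x = (‖x‖ ^ 2) ^ 2 - 1 := by
    intro x; rw [normsq, U, V]; ring
  refine ⟨F, V, U, V, F_cont, V_cd.continuous, ⟨U_cd.continuous.continuousOn, ?_,
    fun x _ => U_visc x⟩, ⟨V_cd.continuous.continuousOn, fun _ _ => rfl, fun x _ => V_visc x⟩, ?_⟩
  · intro x hx
    rw [frontier_ball _ one_ne_zero] at hx
    have h1 : ‖x‖ = 1 := by simpa using hx
    have := hd x
    rw [h1] at this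
    linarith
  · intro x hx
    have h1 : ‖x‖ < 1 := by simpa using hx
    have := hd x
    have h2 : (‖x‖ ^ 2) ^ 2 < 1 :=
      pow_lt_one₀ (by positivity) (pow_lt_one₀ (norm_nonneg _) h1 two_ne_zero) two_ne_zero
    linarith

end Pool.Agent.Results.MP_dcb15c_an.NonUnique
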